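import Pool.Agent.Helper13.TW.StF

/-!
# Project TW, module HOM2: transport of orientations
-/

set_option autoImplicit false

namespace Pool.Agent.Helper53.TW

open Set Topology Pool.Agent.Helper13.TR Pool.Agent.Helper13.TW

private lemma push_cyc (hPSH : StPSH) {X Y : Type} [TopologicalSpace X] [TopologicalSpace Y]
    (f : C(X, Y)) (A : Set X) (B : Set Y) (hAB : A = f ⁻¹' B) (n : ℕ) (c : Ch X n)
    (hc : c ∈ Cyc A n) : push f n c ∈ Cyc B n := by
  subst hAB
  obtain ⟨h1, -, h3, -⟩ := hPSH X Y Y f (ContinuousMap.id Y)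
  cases n with
  | zero => exact Submodule.mem_top
  | succ n =>
    have hc' : bd n c ∈ cin (f ⁻¹' B)ᶜ n := hc
    show bd n (push f (n + 1) c) ∈ cin Bᶜ n
    rw [h1 n c]
    refine h3 Bᶜ n _ ?_
    rwa [preimage_compl]

private lemma push_nul (hPSH : StPSH) {X Y : Type} [TopologicalSpace X] [TopologicalSpace Y]
    (f : C(X, Y)) (A : Set X) (B : Set Y) (hAB : A = f ⁻¹' B) (n : ℕ) (c : Ch X n)
    (hc : c ∈ Nul A n) : push f n c ∈ Nul B n := by
  subst hAB
  obtain ⟨h1, -, h3, -⟩ := hPSH X Y Y f (ContinuousMap.id Y)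
  obtain ⟨r, hr, b', hb', rfl⟩ := Submodule.mem_sup.1 hc
  obtain ⟨b, rfl⟩ := LinearMap.mem_range.1 hb'
  rw [map_add]
  refine Submodule.add_mem_sup ?_ ?_
  · refine h3 Bᶜ n _ ?_
    rwa [preimage_compl]
  · exact LinearMap.mem_range.2 ⟨push f (n + 1) b, h1 n b⟩

private lemma push_id {X : Type} [TopologicalSpace X] (n : ℕ) (c : Ch X n) :
    push (ContinuousMap.id X) n c = c := by
  have e : (fun σ : Sx X n => (ContinuousMap.id X).comp σ) = id := by
    funext σ
    exact ContinuousMap.id_comp σ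
  show Finsupp.mapDomain (fun σ : Sx X n => (ContinuousMap.id X).comp σ) c = c
  rw [e]
  exact Finsupp.mapDomain_id

private lemma push_inv (hPSH : StPSH) {X Y : Type} [TopologicalSpace X] [TopologicalSpace Y]
    (f : C(X, Y)) (g : C(Y, X)) (h : g.comp f = ContinuousMap.id X) (n : ℕ) (c : Ch X n) :
    push g n (push f n c) = c := by
  obtain ⟨-, h2, -⟩ := hPSH X Y X f g
  rw [← h2 n c, h]
  exact push_id n c

theorem hHOM2 (hPSH : StPSH) : StHOM2 := by
  intro S S' _ _ φ ω hω
  let f : C(S', S) := ⟨φ, φ.continuous⟩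
  let g : C(S, S') := ⟨φ.symm, φ.symm.continuous⟩
  have fg : f.comp g = ContinuousMap.id S := by
    ext y
    exact φ.apply_symm_apply y
  have pfg : ∀ (n : ℕ) (c : Ch S n), push f n (push g n c) = c := fun n c =>
    push_inv hPSH g f fg n c
  have gf : g.comp f = ContinuousMap.id S' := by
    ext x
    exact φ.symm_apply_apply x
  have pgf : ∀ (n : ℕ) (c : Ch S' n), push g n (push f n c) = c := fun n c =>
    push_inv hPSH f g gf n c
  have e1 : ∀ x : S', ({x} : Set S') = f ⁻¹' {φ x} := by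
    intro x
    ext z
    simp only [mem_singleton_iff, mem_preimage]
    exact (φ.injective.eq_iff (a := z) (b := x)).symm
  have e2 : ∀ x : S', ({φ x} : Set S) = g ⁻¹' {x} := by
    intro x
    ext z
    simp only [mem_singleton_iff, mem_preimage]
    constructor
    · rintro rfl
      exact φ.symm_apply_apply x
    · intro hz
      have : φ.symm z = x := hz
      rw [← this, φ.apply_symm_apply]
  refine ⟨?_, ?_, ?_, ?_, ?_, ?_⟩
  · intro x c hc
    have hc1 : push f 1 c ∈ Cyc {φ x} 1 := push_cyc hPSH f {x} {φ x} (e1 x) 1 c hc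
    have hc2 := hω.low (φ x) hc1
    have hc3 := push_nul hPSH g {φ x} {x} (e2 x) 1 _ hc2
    rwa [pgf] at hc3
  · intro x e he e' he'
    show ω (φ x) (push f 2 (e + e')) = ω (φ x) (push f 2 e) + ω (φ x) (push f 2 e')
    rw [map_add]
    exact hω.add (φ x) _ (push_cyc hPSH f {x} {φ x} (e1 x) 2 e he) _
      (push_cyc hPSH f {x} {φ x} (e1 x) 2 e' he')
  · intro x e he
    exact hω.nul (φ x) _ (push_nul hPSH f {x} {φ x} (e1 x) 2 e he)
  · intro x e he h0
    have h1 := hω.ker (φ x) _ (push_cyc hPSH f {x} {φ x} (e1 x) 2 e he) h0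
    have h2 := push_nul hPSH g {φ x} {x} (e2 x) 2 _ h1
    rwa [pgf] at h2
  · intro x
    obtain ⟨e, he, h1⟩ := hω.one (φ x)
    refine ⟨push g 2 e, push_cyc hPSH g {φ x} {x} (e2 x) 2 e he, ?_⟩
    show ω (φ x) (push f 2 (push g 2 e)) = 1
    rw [pfg]
    exact h1
  · intro e O hO hb x y hxy
    obtain ⟨k1, -, k3, -⟩ := hPSH S' S S f (ContinuousMap.id S)
    refine hω.loc (push f 2 e) (φ '' O) (φ.isOpenMap O hO) ?_ (φ x) (φ y) (hxy.map_continuousOn ?_)
    · rw [k1 1 e]
      refine k3 (φ '' O)ᶜ 1 _ ?_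
      have e3 : f ⁻¹' (φ '' O)ᶜ = Oᶜ := by
        rw [preimage_compl]
        congr 1
        exact preimage_image_eq O φ.injective
      rwa [e3]
    · exact φ.continuous.continuousOn

end Pool.Agent.Helper53.TW
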