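import Pool.Agent.Helper54.PT.DefsE

set_option autoImplicit false

namespace Pool.Agent.Helper54.PT

open Polynomial Finset

theorem dvd_of_hasse {K : Type} [Field K] (R : K[X]) (x : K) (m : ℕ)
    (h : ∀ k < m, (hasseDeriv k R).eval x = 0) : (X - C x) ^ m ∣ R := by
  have h1 : X ^ m ∣ taylor x R := X_pow_dvd_iff.mpr (fun d hd => by rw [taylor_coeff]; exact h d hd)
  obtain ⟨q, hq⟩ := h1
  have h2 : R = taylor (-x) (taylor x R) := by
    rw [taylor_taylor, neg_add_cancel, taylor_zero]
  rw [h2, hq, taylor_mul]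
  rw [taylor_X_pow, C_neg, ← sub_eq_add_neg]
  exact Dvd.intro _ rfl

/-- S4: zeros of high order -/
theorem card_mul_le {K : Type} [Field K] (R : K[X]) (hR : R ≠ 0) (S : Finset K) (m : ℕ)
    (h : ∀ x ∈ S, ∀ k < m, (hasseDeriv k R).eval x = 0) : m * S.card ≤ R.natDegree := by
  have h1 : (∏ x ∈ S, (X - C x) ^ m) ∣ R := by
    apply Finset.prod_dvd_of_coprime
    · intro x _ y _ hxy
      exact (pairwise_coprime_X_sub_C Function.injective_id hxy).pow
    · intro x hx
      exact dvd_of_hasse R x m (h x hx)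
  have h2 := natDegree_le_of_dvd h1 hR
  have h3 : (∏ x ∈ S, (X - C x : K[X]) ^ m).natDegree = m * S.card := by
    rw [natDegree_prod_of_monic]
    · simp [mul_comm]
    · intro x _
      exact (monic_X_sub_C x).pow m
  omega

end Pool.Agent.Helper54.PT
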