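import Pool.Agent.Helper31.TW.St2

set_option autoImplicit false

namespace Pool.Agent.Helper53.TW

open Pool.Agent.Helper31.TW
open Pool.Agent.Helper22.CS Pool.Agent.Helper15.TS

variable {n : ℕ}

private lemma dot_add (α a b : Fin n → ℤ) : dot α (a + b) = dot α a + dot α b := by
  unfold dot
  simp only [Pi.add_apply, mul_add, Finset.sum_add_distrib]

private lemma dot_sub (α a b : Fin n → ℤ) : dot α (a - b) = dot α a - dot α b := by
  unfold dot
  simp only [Pi.sub_apply, mul_sub, Finset.sum_sub_distrib]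

private lemma dot_smul (α a : Fin n → ℤ) (s : ℤ) : dot α (s • a) = s * dot α a := by
  unfold dot
  rw [Finset.mul_sum]
  refine Finset.sum_congr rfl fun i _ => ?_
  simp only [Pi.smul_apply, smul_eq_mul]
  ring

private lemma core (hEV1 : StEV1) (hF1 : StF1) (M : (Fin n → ℤ) → Prop)
    (𝓐 : Finset (Fin n → ℤ)) (K : ℕ) (hdep : Dep M 𝓐 K) (c : Fin n → ℕ)
    (q : Fin 3 → Fin n → ℕ) (R : Finset ((Fin 3 → ℕ) × Finset (Fin 3 → ℕ)))
    (hk : ∀ k : Fin 3 → ℕ, M (toZ (c + ∑ j, k j • q j)) ↔ ∃ r ∈ R, k ∈ lin r.1 r.2)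
    (x y w1 w2 : Fin n → ℤ) (N m : ℤ) (hN : 0 < N) (h0 : toZ (q 0) = N • y + w1)
    (h1 : toZ (q 1) = N • y + w2) (h2 : toZ (q 2) = N • y - w1 - w2) (hc : toZ c = x + m • y)
    (i j : ℤ) (hE : Ev M (x + i • w1 + j • w2) y) :
    ∃ r ∈ R, ∃ p ∈ r.2, p ≠ 0 ∧ ∀ s : ℤ, Ev M (x + i • w1 + j • w2 +
        s • (((p 0 : ℤ) - (p 2 : ℤ)) • w1 + ((p 1 : ℤ) - (p 2 : ℤ)) • w2)) y := by
  obtain ⟨_, _, e3⟩ := hEV1 n M 𝓐 K hdep
  have hY : ∀ α : Fin n → ℤ, dot α (∑ j : Fin 3, (((fun _ => 1 : Fin 3 → ℕ) j : ℕ) : ℤ) • toZ (q j)) =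
      3 * N * dot α y := by
    intro α
    rw [Fin.sum_univ_three, h0, h1, h2]
    simp only [dot_add, dot_smul, dot_sub]
    push_cast
    ring
  have hsg : ∀ α ∈ 𝓐, Int.sign (dot α y) =
      Int.sign (dot α (∑ j : Fin 3, (((fun _ => 1 : Fin 3 → ℕ) j : ℕ) : ℤ) • toZ (q j))) := by
    intro α _
    rw [hY, Int.sign_mul, Int.sign_eq_one_of_pos (show (0 : ℤ) < 3 * N by linarith), one_mul]
  have hb : Ev M (toZ c + ∑ t : Fin 3, (![i, j, 0] : Fin 3 → ℤ) t • toZ (q t))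
      (∑ j : Fin 3, (((fun _ => 1 : Fin 3 → ℕ) j : ℕ) : ℤ) • toZ (q j)) := by
    refine (e3 _ _ _ _ hsg ?_).1 hE
    intro α _ hα
    rw [Fin.sum_univ_three, h0, h1, h2, hc]
    simp only [dot_add, dot_smul, dot_sub, hα, Matrix.cons_val_zero, Matrix.cons_val_one,
      Matrix.cons_val]
    ring
  obtain ⟨r, hr, P, hP, μ, m1, k0, hm1, hμ, hsum, _, hlast⟩ :=
    hF1 n M 𝓐 K hdep c q R hk (fun _ => 1) (fun _ => le_rfl) ![i, j, 0] hb
  have hne : P.Nonempty := by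
    rw [Finset.nonempty_iff_ne_empty]
    intro e
    rw [e, Finset.sum_empty] at hsum
    have h3 := congrFun hsum 0
    simp only [Pi.zero_apply, Pi.smul_apply, smul_eq_mul, mul_one] at h3
    omega
  obtain ⟨p, hp⟩ := hne
  refine ⟨r, hr, p, hP hp, (hμ p hp).2, ?_⟩
  intro s
  refine (e3 _ _ _ _ hsg ?_).2 (hlast p hp s)
  intro α _ hα
  rw [Fin.sum_univ_three, Fin.sum_univ_three, h0, h1, h2, hc]
  simp only [dot_add, dot_smul, dot_sub, hα, Matrix.cons_val_zero, Matrix.cons_val_one,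
    Matrix.cons_val]
  ring

theorem hSH2 (hEV1 : StEV1) (hF1 : StF1) (hNEA : StNEA) : StSH2 := by
  classical
  intro n M 𝓐 K hctx x y w1 w2 hy
  by_cases hn : n = 0
  · subst hn
    refine ⟨1, fun i j => ⟨![1, 0, 0], ?_, ⟨1, rfl⟩, ?_, ?_⟩⟩
    · intro k
      fin_cases k <;> simp
    · intro e
      have := congrFun e 0
      simp at this
    · intro s
      rw [Subsingleton.elim (x + i • w1 + j • w2 +
        s • (((((![1, 0, 0] : Fin 3 → ℕ) 0 : ℕ) : ℤ) - (((![1, 0, 0] : Fin 3 → ℕ) 2 : ℕ) : ℤ)) • w1 +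
          ((((![1, 0, 0] : Fin 3 → ℕ) 1 : ℕ) : ℤ) - (((![1, 0, 0] : Fin 3 → ℕ) 2 : ℕ) : ℤ)) • w2))
        (x + i • w1 + j • w2)]
  obtain ⟨i0⟩ : Nonempty (Fin n) := ⟨⟨0, Nat.pos_of_ne_zero hn⟩⟩
  obtain ⟨N1, hN1⟩ := hNEA n 𝓐 y w1 hy
  obtain ⟨N2, hN2⟩ := hNEA n 𝓐 y w2 hy
  obtain ⟨N3, hN3⟩ := hNEA n 𝓐 y (-w1 - w2) hy
  set N : ℤ := (N1 : ℤ) + N2 + N3 + 1 with hNdef
  have hN : 0 < N := by positivity
  have p1 := (hN1 N (by rw [hNdef]; linarith [Int.natCast_nonneg N2, Int.natCast_nonneg N3])).1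
  have p2 := (hN2 N (by rw [hNdef]; linarith [Int.natCast_nonneg N1, Int.natCast_nonneg N3])).1
  have p3 := (hN3 N (by rw [hNdef]; linarith [Int.natCast_nonneg N2, Int.natCast_nonneg N1])).1
  set m : ℤ := ∑ i, |x i| with hmdef
  set c : Fin n → ℕ := fun i => (x i + m * y i).toNat with hcdef
  set q : Fin 3 → Fin n → ℕ := ![fun i => ((N • y + w1) i).toNat, fun i => ((N • y + w2) i).toNat,
    fun i => ((N • y + (-w1 - w2)) i).toNat] with hqdef
  have h0 : toZ (q 0) = N • y + w1 := by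
    funext i
    exact Int.toNat_of_nonneg (p1 i).le
  have h1 : toZ (q 1) = N • y + w2 := by
    funext i
    exact Int.toNat_of_nonneg (p2 i).le
  have h2' : toZ (q 2) = N • y + (-w1 - w2) := by
    funext i
    exact Int.toNat_of_nonneg (p3 i).le
  have h2 : toZ (q 2) = N • y - w1 - w2 := by
    rw [h2']
    abel
  have hc : toZ c = x + m • y := by
    funext i
    have hnn : 0 ≤ x i + m * y i := by
      have a1 : |x i| ≤ m := by
        rw [hmdef]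
        exact Finset.single_le_sum (f := fun i => |x i|) (fun i _ => abs_nonneg (x i))
          (Finset.mem_univ i)
      have a2 : (1 : ℤ) ≤ y i := hy i
      have a3 : 0 ≤ m := (abs_nonneg _).trans a1
      have a4 : m ≤ m * y i := le_mul_of_one_le_right a3 a2
      have a5 := neg_abs_le (x i)
      linarith
    exact Int.toNat_of_nonneg hnn
  have hq : ∀ j, q j ≠ 0 := by
    have key : ∀ (v : Fin n → ℕ) (u : Fin n → ℤ), toZ v = u → Pos u → v ≠ 0 := by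
      intro v u h1 h2 e
      have h3 := h2 i0
      rw [← h1, e] at h3
      exact lt_irrefl (0 : ℤ) h3
    intro j
    fin_cases j
    · exact key _ _ h0 p1
    · exact key _ _ h1 p2
    · exact key _ _ h2' p3
  obtain ⟨R, hR1, hR2⟩ := hctx.st c q hq
  obtain ⟨R', hR1', hR2'⟩ := hctx.sc c q hq
  have hdep' : Dep (fun z => ¬ M z) 𝓐 K := fun x x' h => not_congr (hctx.dep x x' h)
  obtain ⟨e1, _, _⟩ := hEV1 n M 𝓐 K hctx.dep
  set T : Finset (Fin 3 → ℕ) := R.biUnion (fun r => r.2) ∪ R'.biUnion (fun r => r.2) with hT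
  have hB : ∀ p ∈ T, ∀ k, p k ≤ ∑ p ∈ T, ∑ k, p k := by
    intro p hp k
    have a1 : p k ≤ ∑ k, p k :=
      Finset.single_le_sum (f := fun k => p k) (fun _ _ => Nat.zero_le _) (Finset.mem_univ k)
    have a2 : ∑ k, p k ≤ ∑ p ∈ T, ∑ k, p k :=
      Finset.single_le_sum (f := fun p : Fin 3 → ℕ => ∑ k, p k) (fun _ _ => Nat.zero_le _) hp
    exact a1.trans a2
  refine ⟨∑ p ∈ T, ∑ k, p k, ?_⟩
  intro i j
  by_cases hE : Ev M (x + i • w1 + j • w2) y
  · obtain ⟨r, hr, p, hp, hp0, hs⟩ := core hEV1 hF1 M 𝓐 K hctx.dep c q R hR2 x y w1 w2 N m hN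
      h0 h1 h2 hc i j hE
    refine ⟨p, hB p ?_, hR1 r hr p hp, hp0, ?_⟩
    · rw [hT, Finset.mem_union]
      left
      exact Finset.mem_biUnion.2 ⟨r, hr, hp⟩
    · intro s
      exact ⟨fun _ => hE, fun _ => hs s⟩
  · obtain ⟨r, hr, p, hp, hp0, hs⟩ := core hEV1 hF1 (fun z => ¬ M z) 𝓐 K hdep' c q R' hR2' x y w1
      w2 N m hN h0 h1 h2 hc i j ((e1 _ _).2 hE)
    refine ⟨p, hB p ?_, hR1' r hr p hp, hp0, ?_⟩
    · rw [hT, Finset.mem_union]
      right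
      exact Finset.mem_biUnion.2 ⟨r, hr, hp⟩
    · intro s
      exact ⟨fun h => absurd h ((e1 _ _).1 (hs s)), fun h => absurd h hE⟩

end Pool.Agent.Helper53.TW
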