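import Pool.Agent.Helper54.PT.DefsE

set_option autoImplicit false

namespace Pool.Agent.Helper54.PT

open Polynomial Finset

theorem dvd_choose_mul_pow {p : ℕ} (hp : p.Prime) (r i j : ℕ) (hi : 0 < i) (hi' : i < p ^ r) :
    p ∣ (j * p ^ r).choose i := by
  obtain ⟨n, hn⟩ | hn : (∃ n, j * p ^ r = n + 1) ∨ j * p ^ r = 0 := by
    rcases Nat.eq_zero_or_pos (j * p ^ r) with h | h
    · exact Or.inr h
    · exact Or.inl ⟨j * p ^ r - 1, by omega⟩
  · obtain ⟨l, rfl⟩ : ∃ l, i = l + 1 := ⟨i - 1, by omega⟩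
    by_contra hcon
    have h1 := Nat.add_one_mul_choose_eq n l
    have h2 : p ^ r ∣ (n + 1).choose (l + 1) * (l + 1) := by
      rw [← h1, ← hn, mul_assoc]
      exact Dvd.dvd.mul_left (Dvd.dvd.mul_right (dvd_refl _) _) _
    rw [hn] at hcon
    have h3 : Nat.Coprime (p ^ r) ((n + 1).choose (l + 1)) :=
      Nat.Coprime.pow_left r ((Nat.Prime.coprime_iff_not_dvd hp).mpr hcon)
    have h4 := h3.dvd_of_dvd_mul_left h2
    have h5 := Nat.le_of_dvd (by omega) h4
    omega
  · rw [hn, Nat.choose_eq_zero_of_lt hi]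
    exact dvd_zero p

/-- S1a -/
theorem hasse_mul_X_pow {K : Type} [Field K] (p : ℕ) [CharP K p] (hp : p.Prime) (r k : ℕ)
    (hk : k < p ^ r) (j : ℕ) (g : K[X]) :
    hasseDeriv k (g * X ^ (j * p ^ r)) = hasseDeriv k g * X ^ (j * p ^ r) := by
  rw [hasseDeriv_mul]
  rw [sum_eq_single (k, 0)]
  · rw [hasseDeriv_zero']
  · rintro ⟨a, b⟩ hab hne
    rw [HasAntidiagonal.mem_antidiagonal] at hab
    simp only at hab
    have hb : 0 < b := by
      rcases Nat.eq_zero_or_pos b with h | h
      · exfalso; apply hne; subst h; simp at hab; rw [hab]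
      · exact h
    have h1 : hasseDeriv b (X ^ (j * p ^ r) : K[X]) = 0 := by
      rw [X_pow_eq_monomial, hasseDeriv_monomial]
      have : (((j * p ^ r).choose b : ℕ) : K) = 0 := by
        rw [CharP.cast_eq_zero_iff K p]
        exact dvd_choose_mul_pow hp r b j hb (by omega)
      rw [this, zero_mul, monomial_zero_right]
    show hasseDeriv a g * hasseDeriv b (X ^ (j * p ^ r)) = 0
    rw [h1, mul_zero]
  · intro h
    exact absurd (HasAntidiagonal.mem_antidiagonal.mpr (by simp)) h

theorem pow_dvd_hasse {K : Type} [Field K] (f : K[X]) (n : ℕ) :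
    ∀ i, f ^ (n - i) ∣ hasseDeriv i (f ^ n) := by
  induction n with
  | zero => intro i; simp
  | succ n ih =>
    intro i
    rw [pow_succ, hasseDeriv_mul]
    apply Finset.dvd_sum
    rintro ⟨a, b⟩ hab
    rw [HasAntidiagonal.mem_antidiagonal] at hab
    simp only at hab
    show f ^ (n + 1 - i) ∣ hasseDeriv a (f ^ n) * hasseDeriv b f
    rcases Nat.eq_zero_or_pos b with h | h
    · subst h
      rw [hasseDeriv_zero']
      have h1 : f ^ (n + 1 - i) ∣ f ^ (n - a) * f := by
        rw [← pow_succ]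
        exact pow_dvd_pow f (by omega)
      exact h1.trans (mul_dvd_mul_right (ih a) f)
    · have h1 : f ^ (n + 1 - i) ∣ f ^ (n - a) := pow_dvd_pow f (by omega)
      exact (h1.trans (ih a)).mul_right _

theorem exists_h {K : Type} [Field K] (f : K[X]) (n i : ℕ) (hi : i ≤ n) :
    ∃ h : K[X], hasseDeriv i (f ^ n) = f ^ (n - i) * h ∧ h.natDegree ≤ i * f.natDegree := by
  by_cases hf : f = 0
  · subst hf
    rcases Nat.eq_zero_or_pos n with h | h
    · subst h
      have : i = 0 := by omega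
      subst this
      exact ⟨1, by simp, by simp⟩
    · exact ⟨0, by rw [zero_pow h.ne']; simp, by simp⟩
  · obtain ⟨h, hh⟩ := pow_dvd_hasse f n i
    refine ⟨h, hh, ?_⟩
    by_cases h0 : h = 0
    · subst h0; simp
    · have h1 := congrArg natDegree hh
      rw [natDegree_mul (pow_ne_zero _ hf) h0, natDegree_pow] at h1
      have h2 := natDegree_hasseDeriv_le (f ^ n) i
      rw [natDegree_pow] at h2
      have h3 : n * f.natDegree = (n - i) * f.natDegree + i * f.natDegree := by
        rw [← Nat.add_mul]; congr 1; omega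
      omega

theorem hasse_mem {K : Type} [Field K] (A b : ℕ) (g : K[X]) (hg : g ∈ degreeLT K A) :
    hasseDeriv b g ∈ degreeLT K A := by
  rw [mem_degreeLT, degree_lt_iff_coeff_zero] at hg ⊢
  intro m hm
  rw [hasseDeriv_coeff, hg (m + b) (by omega), mul_zero]

theorem mul_mem_degreeLT {K : Type} [Field K] (A c : ℕ) (u g : K[X]) (hu : u.natDegree ≤ c)
    (hg : g ∈ degreeLT K A) : u * g ∈ degreeLT K (A + c) := by
  by_cases h0 : u * g = 0
  · rw [h0]; exact Submodule.zero_mem _
  have hu0 : u ≠ 0 := left_ne_zero_of_mul h0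
  have hg0 : g ≠ 0 := right_ne_zero_of_mul h0
  rw [mem_degreeLT] at hg ⊢
  rw [degree_eq_natDegree hg0] at hg
  have hg' : g.natDegree < A := by exact_mod_cast hg
  rw [degree_eq_natDegree h0, natDegree_mul hu0 hg0]
  have : u.natDegree + g.natDegree < A + c := by omega
  exact_mod_cast this

/-- S1b -/
theorem hasse_pow_mul {K : Type} [Field K] (f : K[X]) (n k : ℕ) (hkn : k ≤ n) :
    ∃ T : K[X] →ₗ[K] K[X], (∀ g, hasseDeriv k (f ^ n * g) = f ^ (n - k) * T g) ∧
      ∀ A : ℕ, ∀ g ∈ degreeLT K A, T g ∈ degreeLT K (A + k * f.natDegree) := by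
  have hex : ∀ i : ℕ, ∃ h : K[X], i ≤ n → (hasseDeriv i (f ^ n) = f ^ (n - i) * h ∧
      h.natDegree ≤ i * f.natDegree) := by
    intro i
    by_cases hi : i ≤ n
    · obtain ⟨h, h1, h2⟩ := exists_h f n i hi
      exact ⟨h, fun _ => ⟨h1, h2⟩⟩
    · exact ⟨0, fun h => absurd h hi⟩
  choose h hh using hex
  refine ⟨∑ ab ∈ HasAntidiagonal.antidiagonal k, (LinearMap.mulLeft K (f ^ (k - ab.1) * h ab.1)).comp
    (hasseDeriv ab.2), ?_, ?_⟩
  · intro g
    rw [hasseDeriv_mul, LinearMap.sum_apply, Finset.mul_sum]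
    apply Finset.sum_congr rfl
    rintro ⟨a, b⟩ hab
    rw [HasAntidiagonal.mem_antidiagonal] at hab
    simp only at hab
    show hasseDeriv a (f ^ n) * hasseDeriv b g =
      f ^ (n - k) * (f ^ (k - a) * h a * hasseDeriv b g)
    rw [(hh a (by omega)).1]
    have : n - a = (n - k) + (k - a) := by omega
    rw [this, pow_add]
    ring
  · intro A g hg
    rw [LinearMap.sum_apply]
    apply Submodule.sum_mem
    rintro ⟨a, b⟩ hab
    rw [HasAntidiagonal.mem_antidiagonal] at hab
    simp only at hab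
    show f ^ (k - a) * h a * hasseDeriv b g ∈ degreeLT K (A + k * f.natDegree)
    refine mul_mem_degreeLT A _ _ _ ?_ (hasse_mem A b g hg)
    refine natDegree_mul_le.trans ?_
    have h1 := (hh a (by omega)).2
    have h2 : (f ^ (k - a)).natDegree ≤ (k - a) * f.natDegree := natDegree_pow_le
    have h3 : k * f.natDegree = (k - a) * f.natDegree + a * f.natDegree := by
      rw [← Nat.add_mul]; congr 1; omega
    omega

end Pool.Agent.Helper54.PT
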