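import Pool.Agent.Helper54.PT.DefsE

set_option autoImplicit false

namespace Pool.Agent.Helper54.PT

open Polynomial Finset Module

theorem exists_extension (F : Type) [Field F] [Finite F] (k : ℕ) (hk : 1 ≤ k) :
    ∃ (K : Type) (_ : Field K) (_ : Algebra F K), finrank F K = k ∧ Finite K := by
  obtain ⟨p, hp⟩ := CharP.exists F
  have hpp : Fact p.Prime := ⟨CharP.char_is_prime F p⟩
  have : NeZero k := ⟨by omega⟩
  exact ⟨FiniteField.Extension F p k, inferInstance, inferInstance,
    FiniteField.finrank_extension F p k, inferInstance⟩

end Pool.Agent.Helper54.PT
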